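import Pool.Agent.helper62.VN.SpecG
import Pool.Agent.helper62.VQE.PZE

/-! # Project VN (MP_07c750_an), row GN1: the first derivative of the potential in a moved frame (adaptation of PZE) -/

set_option autoImplicit false

open scoped MatrixGroups ContDiff Topology UpperHalfPlane
open UpperHalfPlane MeasureTheory Filter Set

namespace Pool.Agent.VNE

open Pool.Agent.RS Pool.Agent.VQE
open Pool.Agent.VQ (Dyn rho kap n1 n2 hess Ug TF)
open Pool.Agent.VN (PotN OKN Kg)

noncomputable section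

theorem GN1_proof : GN1_stmt := by
  intro U g D hU
  obtain ⟨h1, h2⟩ := PZE_deriv D
  have h3 : VQ.Ug U (g * D) =ᶠ[𝓝 0] fun v => VQ.Ug U g (PZE_m D v) := by
    have h4 : {w : ℂ | ‖w‖ < 2} ∈ 𝓝 (0 : ℂ) := (isOpen_lt continuous_norm continuous_const).mem_nhds (by simp)
    filter_upwards [h4] with w hw
    exact PZE_Ug U g D w hw
  unfold VQ.n1
  rw [h3.fderiv_eq]
  have h5 : HasFDerivAt (VQ.Ug U g) (fderiv ℝ (VQ.Ug U g) (PZE_m D 0)) (PZE_m D 0) := by
    refine (PZE_diff U g _ hU ?_).hasFDerivAt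
    rw [h2]
    exact PZE_lt D
  have h6 := h5.comp (0 : ℂ) (h1.hasFDerivAt.restrictScalars ℝ)
  have h7 : fderiv ℝ (fun v => VQ.Ug U g (PZE_m D v)) 0 = _ := h6.fderiv
  rw [h7, h2]
  simp

end

end Pool.Agent.VNE
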